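import Pool.Agent.H29.Bi.Main

set_option autoImplicit false

/-!
# Linear arboricity of Cayley graphs on groups of order twice a prime

`H931R3.LA.la G` is the linear arboricity of `G`, the least number of linear forests with union `G`
(the same expression as in the frozen statement S07085).

Idea of the proof for odd degree. The rotation classes `± s` are the same in both cosets of the
subgroup of order `p`. One cross class, a perfect matching, is put in the last forest. The other
cross classes are paired. As many 2-factors (two cycles of class `± s`) as possible are merged with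
Hamilton cycles of cross edges into pairs of Hamilton cycles, by exchanging the edges of one
4-cycle. Every cycle that is left is broken at an edge; the rotation edges at which this is done are
edges of one zigzag path through the contracted perfect matching, and the cross edges are chords
joining opposite points of this path; if all chords lie in the outer or all in the inner half, no
cycle arises.
-/

namespace Pool.Agent.Results.MP_0a041d_co.GroupsOrderTwoP

open SimpleGraph H931R3.LA Pool.Agent.H29.Bi Pool.Agent.TH525.FRG

/-- **The linear arboricity conjecture for all Cayley graphs on groups of order `2 p`**, `p` an odd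
prime (the group is cyclic or dihedral). Let `G` be the Cayley graph on `Γ`, `|Γ| = 2 p`, with
nonempty connection set `C`. Then `G` is `|C|`-regular and `la G = ⌊|C| / 2⌋ + 1 = ⌈(|C| + 1) / 2⌉`.
Moreover every finite graph `X` with a locally injective homomorphism to `G` (for instance a finite
cover of `G`) has linear arboricity at most `⌊|C| / 2⌋ + 1`, with equality if `X` is
`|C|`-regular. -/
theorem result :
    ∀ (p : ℕ), p.Prime → p ≠ 2 → ∀ (Γ : Type) [Group Γ], Nat.card Γ = 2 * p →
      ∀ (C : Set Γ) (G : SimpleGraph Γ), C.Nonempty → (∀ x y, G.Adj x y ↔ x⁻¹ * y ∈ C) →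
      (∀ v, (G.neighborSet v).ncard = C.ncard) ∧ la G = C.ncard / 2 + 1 ∧
      ∀ (W : Type) [Finite W] [Nonempty W] (X : SimpleGraph W) (f : W → Γ),
        (∀ a b, X.Adj a b → G.Adj (f a) (f b)) →
        (∀ a b c, X.Adj a b → X.Adj a c → f b = f c → b = c) →
        la X ≤ C.ncard / 2 + 1 ∧
          ((∀ a, (X.neighborSet a).ncard = C.ncard) → la X = C.ncard / 2 + 1) := by
  intro p hp h2 Γ _ hΓ C G hC hG
  have : Fact p.Prime := ⟨hp⟩
  have hpos := hp.pos
  have hfin : Finite Γ := Nat.finite_of_card_ne_zero (by rw [hΓ]; omega)
  have e : (C.ncard + 2) / 2 = C.ncard / 2 + 1 := by omega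
  have hCpos : 0 < C.ncard := (Set.ncard_pos (Set.toFinite _)).2 hC
  obtain ⟨hreg, h1⟩ := la_cayley h2 hΓ C hC G hG
  rw [e] at h1
  refine ⟨hreg, h1, ?_⟩
  intro W _ _ X f hom inj
  have h3 : la X ≤ C.ncard / 2 + 1 := (la_hom X G f hom inj).trans h1.le
  refine ⟨h3, fun hX => le_antisymm h3 ?_⟩
  rw [← e]
  exact lower hCpos (cov_la X) hX

end Pool.Agent.Results.MP_0a041d_co.GroupsOrderTwoP
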