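import Pool.Agent.H79.LJ.Main

set_option autoImplicit false

/-!
# Linear arboricity: bounds closed under constructions

`H931R3.LA.la G` is the linear arboricity (the same expression as in the frozen statement S07085).

`Bounded V G k` (`Pool.Agent.H79.LJ.Defs`) says that the bound `k` for the linear arboricity of `G` is
obtained from the starting families `Start` by finitely many applications of the following rules: increasing
`k`; locally injective homomorphisms (subgraphs, covers); unions; homomorphisms with at most `β`
neighbours over every vertex; maps with at most one neighbour over every vertex; Cartesian
products with `(H, l)` and with graphs which have an acyclic edge colouring; lexicographic products and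
the substitution of different graphs for the vertices of a graph.

The starting families are graphs over multigraphs without short cycles, underlying graphs of digraphs
without short directed cycles, graphs with large homogeneous classes or large twin classes, graphs
with few short cycles, degenerate graphs, blow-ups, Cartesian products with many factors, line
graphs, total graphs, Cayley graphs of cyclic and elementary abelian groups and vertex-transitive
graphs with `p` or `p ^ 2` vertices.

The starting families and the single rules are theorems of the starting library (and
`MP_0a041d_co.VertexTransitive`), which come from different runs; here they are joined: the rules can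
be composed in an arbitrary way.
-/

namespace Pool.Agent.Results.MP_0a041d_co.JointClosure

open SimpleGraph H931R3.LA Pool.Agent.H79.LJ

/-- **Bounds for the linear arboricity.** If `Bounded V G k` then `V` is finite and `la G ≤ k`. If
moreover `G` is nonempty and `r`-regular, `r ≥ 1`, and `k ≤ ⌈(r + 1) / 2⌉`, then `G` satisfies the linear
arboricity conjecture, `la G = ⌈(r + 1) / 2⌉`. -/
theorem result (V : Type) (G : SimpleGraph V) (k : ℕ) (h : Bounded V G k) :
    Finite V ∧ la G ≤ k ∧
      ∀ r : ℕ, Nonempty V → 0 < r → (∀ v, (G.neighborSet v).ncard = r) → k ≤ (r + 2) / 2 →
        la G = (r + 2) / 2 := by
  obtain ⟨hV, hG⟩ := h.main
  exact ⟨hV, la_le hG, fun r _ hr hreg hk =>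
    Pool.Agent.W111.LAR.la_eq_of_cov hr hreg (hG.mono hk)⟩

end Pool.Agent.Results.MP_0a041d_co.JointClosure
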