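import Pool.Agent.H28.CU.Main
import Pool.Agent.H28.CU.SDefs

set_option autoImplicit false

/-!
# The linear arboricity conjecture for Cayley graphs with generators spread in an elementary abelian
quotient

Let `X` be the Cayley graph of a finite group `Γ` with the connection set `S` (closed under inverses,
without `1`), and let `π : Γ → V` be a homomorphism to a finite vector space over `𝔽_p`, `p` a prime, such
that no subspace of small dimension contains too many of the `π s`. Then the linear arboricity conjecture
is true for `X` and for all its finite covers, in even and odd degree: `la X = ⌊|S|/2⌋ + 1`.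

`LACov X N` says: `X` is `N`-regular, `la X = ⌊N/2⌋ + 1`, and every finite nonempty graph `G` with a locally
injective homomorphism to `X` (for example a finite cover of `X`) has `la G ≤ ⌊N/2⌋ + 1`, with equality if
`G` is `N`-regular. `H931R3.LA.la` is the linear arboricity (the same expression as in the frozen statement
S07085).

Proof. By the matroid union theorem `S` (for `p` odd a half system of `S`) is partitioned into sets of
prescribed sizes `t`, `t + 1` or `t + 2`, `t` a power of two, with linearly independent images in `V`
(and one single involution if the degree is odd). The Cayley graph of such a part is mapped by a locally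
injective homomorphism to the torus `(ℤ/p)^m` (the cube if `p = 2`), which is the union of Hamilton
cycles if `m` is a power of two, and of 2-factors with cycles of length at least `p^t` in the other
cases; for elements which are not involutions and `p = 2` there are oriented versions. So `X` is the
union of `⌊|S|/2⌋` graphs of maximum degree two with cycles of length at least `p^t` and at most one
matching, and the criteria of the library give one more linear forest.
-/

namespace Pool.Agent.Results.MP_0a041d_co.SpreadGenerators

open Module SimpleGraph Pool.Agent.H28.CU

/-- (1) `p = 2`. (2) `p` odd. (3) Uniformly dense sets in `(ℤ/p)^n` for `p = 2, 3`, for example all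
sets which are invariant under a group of linear automorphisms such that every invariant subspace
which meets the set is the whole space. -/
theorem result :
    (∀ (Γ V : Type) [Group Γ] [Finite Γ] [AddCommGroup V] [Module (ZMod 2) V] [Finite V]
      (π : Γ →* Multiplicative V) (S : Set Γ) (X : SimpleGraph Γ) (k : ℕ),
      IsCay X S → S.Nonempty → SpreadTwo π S (2 ^ (k + 1)) → LACov X S.ncard) ∧
    (∀ (p : ℕ) [Fact p.Prime] (Γ V : Type) [Group Γ] [Finite Γ] [AddCommGroup V]
      [Module (ZMod p) V] [Finite V] (π : Γ →* Multiplicative V) (S : Set Γ) (X : SimpleGraph Γ)
      (k : ℕ), p ≠ 2 → IsCay X S → S.Nonempty → SpreadOdd p π S (2 ^ k) → LACov X S.ncard) ∧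
    (∀ (p n : ℕ) [Fact p.Prime] (S : Set (Fin n → ZMod p))
      (X : SimpleGraph (Fin n → ZMod p)), p = 2 ∨ p = 3 → (∀ v w, X.Adj v w ↔ w - v ∈ S) →
      144 ≤ S.ncard → 72 * S.ncard ^ 2 ≤ p ^ n → (Uniform p n S ∨ IrreducibleSet p n S) →
      LACov X S.ncard) :=
  ⟨fun Γ V _ _ _ _ _ π S X k hX hS h => caym_all Γ V π S (invs S) (nonInvs S) X k _ hX hS
      (fun _ => Iff.rfl) (fun _ => Iff.rfl) rfl h.small h.small' h.even h.odd
      (fun U hU => ⟨h.spread U hU, h.spread' U hU⟩) (fun U hU => h.outside U hU),
    fun p _ Γ V _ _ _ _ _ π S X k hp hX hS h => cayq_all p Γ V π S X k _ hp hX hS rfl h.small h.le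
      (fun U hU => h.spread U hU),
    fun p n _ S X hp hX h1 h2 h3 => vec_all p n S X hp hX h1 h2 h3⟩

end Pool.Agent.Results.MP_0a041d_co.SpreadGenerators
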