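import Pool.Agent.H29.Bi.Main

set_option autoImplicit false

/-!
# Linear arboricity of bicirculant graphs of prime order and even degree

`H931R3.LA.la G` is the linear arboricity of `G`, the least number of linear forests with union `G`
(the same expression as in the frozen statement S07085).

Idea of the proof. Let `σ` be the automorphism, with orbits `{i} × ℤ/p`. The edges in the orbits form
`k` classes `± s` in both orbits, and the cross edges `2 m` classes; `k + m` 2-factors arise by
joining one class of the first orbit and one of the second, or two cross classes (a Hamilton cycle).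
From every cycle one edge is removed, namely the edge with midpoint `0` in the first orbit, with
midpoint `1` in the second one, and `(0, t) (1, t)` for one of the two cross classes. In suitable
coordinates all these edges belong to one path. No bound of the degree in terms of `p` is needed.
-/

namespace Pool.Agent.Results.MP_0a041d_co.TwoOrbitsEven

open SimpleGraph H931R3.LA Pool.Agent.H29.Bi Pool.Agent.TH525.FRG

/-- **The linear arboricity conjecture for bicirculants of order `2 p` and even degree, and for
vertex-transitive graphs of order `2 p` and even degree.**  Let `p` be an odd prime and let `G` be an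
`r`-regular graph with `2 p` vertices, `r ≥ 2` even, such that `G` has an automorphism `σ` with
`σ ^ p = 1` and without fixed points, or `G` is vertex-transitive. Then `la G = r / 2 + 1`. Moreover
every finite graph `X` with a locally injective homomorphism to `G` (for instance a finite cover of
`G`) has linear arboricity at most `r / 2 + 1`, with equality if `X` is `r`-regular. -/
theorem result :
    ∀ (p : ℕ), p.Prime → p ≠ 2 → ∀ (V : Type) [Finite V], Nat.card V = 2 * p →
      ∀ (G : SimpleGraph V) (r : ℕ), 0 < r → Even r → (∀ v, (G.neighborSet v).ncard = r) →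
      ((∃ σ : Equiv.Perm V, σ ^ p = 1 ∧ (∀ v, σ v ≠ v) ∧ ∀ u v, G.Adj (σ u) (σ v) ↔ G.Adj u v) ∨
        (∀ u v : V, ∃ φ : G ≃g G, φ u = v)) →
      la G = r / 2 + 1 ∧
      ∀ (W : Type) [Finite W] [Nonempty W] (X : SimpleGraph W) (f : W → V),
        (∀ a b, X.Adj a b → G.Adj (f a) (f b)) →
        (∀ a b c, X.Adj a b → X.Adj a c → f b = f c → b = c) →
        la X ≤ r / 2 + 1 ∧ ((∀ a, (X.neighborSet a).ncard = r) → la X = r / 2 + 1) := by
  intro p hp h2 V _ hV G r hr he hreg hsym
  have : Fact p.Prime := ⟨hp⟩
  have e : (r + 2) / 2 = r / 2 + 1 := by omega
  have h1 : la G = (r + 2) / 2 := by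
    rcases hsym with ⟨σ, h, hfix, hσ⟩ | hvt
    · exact la_even h2 hV G σ h hfix hσ r hr he hreg
    · exact la_vt h2 hV G hvt r hr he hreg
  rw [e] at h1
  refine ⟨h1, ?_⟩
  intro W _ _ X f hom inj
  have h3 : la X ≤ r / 2 + 1 := (la_hom X G f hom inj).trans h1.le
  refine ⟨h3, fun hX => le_antisymm h3 ?_⟩
  rw [← e]
  exact lower hr (cov_la X) hX

end Pool.Agent.Results.MP_0a041d_co.TwoOrbitsEven
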